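import Pool.Agent.Helper61.QE.St1

open MeasureTheory Set Filter Topology Complex
open scoped ContDiff ComplexConjugate ENNReal

namespace Pool.Agent.Helper30.QE
open Pool.Agent.Helper68.QC Pool.Agent.Helper61.QE

lemma mob_zero {A : SL} (hA : SU A) : mob A 0 = A 0 1 / conj (A 0 0) := by
  unfold mob den
  rw [hA.1]
  simp

lemma su_pos (hSUB : StSUB) {A : SL} (hA : SU A) : ‖A 0 0‖ ^ 2 = 1 + ‖A 0 1‖ ^ 2 := by
  have h := hSUB.2.2.2.2.2.2.2.1 A hA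
  rwa [hA.2, RCLike.norm_conj] at h

lemma su_lt (hSUB : StSUB) {A : SL} (hA : SU A) : ‖A 0 1‖ < ‖A 0 0‖ := by
  have h := su_pos hSUB hA
  have h1 := norm_nonneg (A 0 1)
  have h2 := norm_nonneg (A 0 0)
  nlinarith

lemma norm_mob_zero {A : SL} (hA : SU A) : ‖mob A 0‖ = ‖A 0 1‖ / ‖A 0 0‖ := by
  rw [mob_zero hA, norm_div, RCLike.norm_conj]

theorem pFUX (hSUB : Pool.Agent.Helper61.QE.StSUB) : Pool.Agent.Helper61.QE.StFUX := by
  intro Γ _ s hs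
  have hlt : ∀ γ, ‖mob (s γ) 0‖ < 1 := by
    intro γ
    rw [norm_mob_zero (hs.su γ), div_lt_one (lt_of_le_of_lt (norm_nonneg _) (su_lt hSUB (hs.su γ)))]
    exact su_lt hSUB (hs.su γ)
  have hjj := hSUB.2.2.2.2.2.2.2.2.1
  refine ⟨?_, ?_, ?_⟩
  · -- countability
    rw [← Set.countable_univ_iff]
    have h1 : (univ : Set Γ) ⊆ ⋃ n : ℕ, {γ | ‖mob (s γ) 0‖ ≤ 1 - 1 / ((n : ℝ) + 1)} := by
      intro γ _
      obtain ⟨n, hn⟩ := exists_nat_one_div_lt (sub_pos.2 (hlt γ))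
      rw [mem_iUnion]
      refine ⟨n, ?_⟩
      rw [Set.mem_ofPred_eq]
      linarith
    refine Set.Countable.mono h1 (Set.countable_iUnion fun n => ?_)
    have : (0 : ℝ) < 1 / ((n : ℝ) + 1) := by positivity
    exact (hs.disc (1 - 1 / ((n : ℝ) + 1)) (by linarith)).countable
  · -- the group seen from infinity
    have hmob : ∀ γ u, mob (js s γ) u = conj (mob (s γ) (conj u)) := fun γ u =>
      ((hjj (s γ) (hs.su γ)).2 u).1
    have hconjD : ∀ z ∈ D, conj z ∈ D := by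
      intro z hz
      rw [mem_ball_zero_iff] at hz ⊢
      rwa [RCLike.norm_conj]
    refine ⟨fun γ => (hSUB.2.2.2.2.2.2.1 (s γ) (s γ) (hs.su γ) (hs.su γ)).2.2, ?_, ?_, ?_⟩
    · intro r hr
      have := hs.disc r hr
      refine this.subset fun γ hγ => ?_
      rw [Set.mem_ofPred_eq, hmob, RCLike.norm_conj, map_zero] at hγ
      exact hγ
    · intro γ hγ z hz h
      rw [hmob] at h
      refine hs.free γ hγ (conj z) (hconjD z hz) ?_
      have h2 := congrArg (starRingEnd ℂ) h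
      rwa [Complex.conj_conj] at h2
    · obtain ⟨r, hr, h⟩ := hs.coc
      refine ⟨r, hr, fun z hz => ?_⟩
      obtain ⟨γ, hγ⟩ := h (conj z) (hconjD z hz)
      exact ⟨γ, by rw [hmob, RCLike.norm_conj]; exact hγ⟩
  · -- disjoint translates
    have hne : ∀ γ, γ ≠ 1 → mob (s γ) 0 ≠ 0 := fun γ hγ => hs.free γ hγ 0 (by simp)
    obtain ⟨δ, hδ0, hδ1, hδ⟩ : ∃ δ : ℝ, 0 < δ ∧ δ ≤ 1 / 2 ∧ ∀ γ, γ ≠ 1 → δ ≤ ‖mob (s γ) 0‖ := by
      have hfin := hs.disc (1 / 2) (by norm_num)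
      have h1 : ∀ᶠ δ : ℝ in 𝓝[>] 0, ∀ γ ∈ {γ | ‖mob (s γ) 0‖ ≤ 1 / 2}, γ ≠ 1 →
          δ ≤ ‖mob (s γ) 0‖ := by
        rw [Filter.eventually_all_finite hfin]
        intro γ _
        by_cases hγ : γ = 1
        · exact Eventually.of_forall fun δ h => absurd hγ h
        · have h2 : (0 : ℝ) < ‖mob (s γ) 0‖ := norm_pos_iff.2 (hne γ hγ)
          filter_upwards [Ioo_mem_nhdsGT h2] with δ hδ _
          exact hδ.2.le
      have h3 : ∀ᶠ δ : ℝ in 𝓝[>] 0, δ ∈ Ioo (0 : ℝ) (1 / 2) := Ioo_mem_nhdsGT (by norm_num)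
      obtain ⟨δ, h4, h5⟩ := (h1.and h3).exists
      refine ⟨δ, h5.1, h5.2.le, fun γ hγ => ?_⟩
      by_cases h6 : ‖mob (s γ) 0‖ ≤ 1 / 2
      · exact h4 γ h6 hγ
      · push Not at h6
        exact h5.2.le.trans h6.le
    have hρ8 : 8 ≤ 4 / δ := by
      rw [le_div_iff₀ hδ0]
      linarith
    refine ⟨4 / δ, by linarith, fun γ hγ => ?_⟩
    have hA := hs.su γ
    have hlt' := su_lt hSUB hA
    have hδγ := hδ γ hγ
    rw [norm_mob_zero hA] at hδγ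
    have h10 : s γ 1 0 = conj (s γ 0 1) := hA.2
    have h11 : s γ 1 1 = conj (s γ 0 0) := hA.1
    have ha : 0 < ‖s γ 0 0‖ := lt_of_le_of_lt (norm_nonneg _) hlt'
    have hab : δ * ‖s γ 0 0‖ ≤ ‖s γ 0 1‖ := (le_div_iff₀ ha).1 hδγ
    have hb : 0 < ‖s γ 0 1‖ := lt_of_lt_of_le (mul_pos hδ0 ha) hab
    have hb0 : s γ 0 1 ≠ 0 := norm_pos_iff.1 hb
    have hcn : ‖cn (s γ)‖ = ‖s γ 0 0‖ / ‖s γ 0 1‖ := by
      unfold cn
      rw [h10, norm_div, RCLike.norm_conj]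
    have h4ab : 4 * ‖s γ 0 0‖ ≤ 4 / δ * ‖s γ 0 1‖ := by
      rw [div_mul_eq_mul_div, le_div_iff₀ hδ0]
      linarith
    refine ⟨?_, ?_, ?_, ?_, fun z hz => ?_⟩
    · rw [h10]
      simpa using hb0
    · rw [hcn, one_lt_div hb]
      exact hlt'
    · rw [hcn, div_le_iff₀ hb]
      linarith
    · rw [hcn]
      unfold pl
      rw [h10, h11, norm_div, norm_neg, RCLike.norm_conj, RCLike.norm_conj]
    · have hz1 : 8 < ‖z‖ := lt_of_le_of_lt hρ8 hz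
      have hden : ‖s γ 0 1‖ * ‖z‖ - ‖s γ 0 0‖ ≤ ‖den (s γ) z‖ := by
        unfold den
        rw [h10, h11]
        have h1 := norm_sub_norm_le (conj (s γ 0 1) * z) (-(conj (s γ 0 0)))
        rw [norm_neg, norm_mul, RCLike.norm_conj, RCLike.norm_conj, sub_neg_eq_add] at h1
        exact h1
      have h2 : 4 / δ * ‖s γ 0 1‖ < ‖z‖ * ‖s γ 0 1‖ := mul_lt_mul_of_pos_right hz hb
      have hpos : 0 < ‖den (s γ) z‖ := by nlinarith
      refine ⟨norm_pos_iff.1 hpos, ?_⟩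
      unfold mob
      rw [norm_div, div_le_iff₀ hpos]
      have h3 : ‖s γ 0 0 * z + s γ 0 1‖ ≤ ‖s γ 0 0‖ * ‖z‖ + ‖s γ 0 1‖ :=
        (norm_add_le _ _).trans (by rw [norm_mul])
      have h4 : 4 / δ * (‖s γ 0 1‖ * ‖z‖ - ‖s γ 0 0‖) ≤ 4 / δ * ‖den (s γ) z‖ :=
        mul_le_mul_of_nonneg_left hden (by linarith)
      have h5 : 4 * ‖s γ 0 0‖ * ‖z‖ ≤ 4 / δ * ‖s γ 0 1‖ * ‖z‖ :=
        mul_le_mul_of_nonneg_right h4ab (norm_nonneg _)
      have h6 : 4 / δ * ‖s γ 0 0‖ ≤ ‖z‖ * ‖s γ 0 0‖ := mul_le_mul_of_nonneg_right hz.le ha.le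
      nlinarith

end Pool.Agent.Helper30.QE
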